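import Pool.Agent.Helper69.AS.St

set_option autoImplicit false

namespace Pool.Agent.Helper21.AS

open Pool.Agent.Helper35.PM Pool.Agent.Helper69.AS
open Filter Topology Matrix Set MeasureTheory
open scoped ENNReal ComplexOrder

lemma tl_eq {A A' : SL} (h : (A' : Mat).trace = (A : Mat).trace) : tl A' = tl A := by
  unfold tl
  rw [h]

lemma tl_neg {A A' : SL} (h : (A' : Mat).trace = -(A : Mat).trace) : tl A' = tl A := by
  unfold tl
  rw [h]
  congr 2
  ext y
  constructor
  · rintro ⟨μ, hμ, rfl⟩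
    refine ⟨-μ, ?_, ?_⟩
    · have h1 : μ ^ 2 - -(A : Mat).trace * μ + 1 = 0 := hμ
      show (-μ) ^ 2 - (A : Mat).trace * (-μ) + 1 = 0
      rw [← h1]
      ring
    · simp
  · rintro ⟨μ, hμ, rfl⟩
    refine ⟨-μ, ?_, ?_⟩
    · have h1 : μ ^ 2 - (A : Mat).trace * μ + 1 = 0 := hμ
      show (-μ) ^ 2 - -(A : Mat).trace * (-μ) + 1 = 0
      rw [← h1]
      ring
    · simp

lemma trace_conj (B A : SL) : ((B * A * B⁻¹ : SL) : Mat).trace = (A : Mat).trace := by
  have h1 : ((B * A * B⁻¹ : SL) : Mat) = (B : Mat) * (A : Mat) * ((B⁻¹ : SL) : Mat) := rfl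
  have h2 : ((B⁻¹ : SL) : Mat) * (B : Mat) = 1 :=
    congrArg (fun X : SL => (X : Mat)) (inv_mul_cancel B)
  rw [h1, Matrix.trace_mul_comm, ← Matrix.mul_assoc, h2, Matrix.one_mul]

theorem hIV (hLN : St_LN) : StIV := by
  intro Γ _ φ ρ σ hS
  obtain ⟨B, hB⟩ := hS
  have htl : ∀ γ, tl (σ γ) = tl (ρ (φ γ)) := by
    intro γ
    rcases hB γ with h | h
    · apply tl_eq
      rw [h, trace_conj]
    · apply tl_neg
      rw [h, Matrix.trace_neg, trace_conj]
  let m : ConjClasses Γ → ConjClasses Γ := ConjClasses.map (φ : Γ →* Γ)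
  let m' : ConjClasses Γ → ConjClasses Γ := ConjClasses.map (φ.symm : Γ →* Γ)
  have hlen : ∀ c, len σ c = len ρ (m c) := by
    intro c
    obtain ⟨γ, rfl⟩ := ConjClasses.mk_surjective c
    have h1 : m (ConjClasses.mk γ) = ConjClasses.mk (φ γ) := rfl
    rw [h1, hLN, hLN, htl]
  have hmm : ∀ c, m (m' c) = c := by
    intro c
    obtain ⟨γ, rfl⟩ := ConjClasses.mk_surjective c
    show ConjClasses.mk (φ (φ.symm γ)) = ConjClasses.mk γ
    rw [MulEquiv.apply_symm_apply]
  have hmm' : ∀ c, m' (m c) = c := by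
    intro c
    obtain ⟨γ, rfl⟩ := ConjClasses.mk_surjective c
    show ConjClasses.mk (φ.symm (φ γ)) = ConjClasses.mk γ
    rw [MulEquiv.symm_apply_apply]
  have hinj : Function.Injective m := fun a b hab => by
    rw [← hmm' a, ← hmm' b, hab]
  have hcl : ∀ T, classes ρ T = m '' classes σ T := by
    intro T
    ext c
    constructor
    · intro hc
      refine ⟨m' c, ?_, hmm c⟩
      show len σ (m' c) ≤ T
      rw [hlen, hmm]
      exact hc
    · rintro ⟨d, hd, rfl⟩
      show len ρ (m d) ≤ T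
      rw [← hlen]
      exact hd
  have hnum : ∀ T, num σ T = num ρ T := by
    intro T
    unfold num
    rw [hcl T, Set.ncard_image_of_injective _ hinj]
  unfold ent
  simp only [hnum]

end Pool.Agent.Helper21.AS
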